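import Pool.Agent.Helper74.NM.St

set_option autoImplicit false

namespace Pool.Agent.Helper26.NM

open Pool.Agent.Helper74 Pool.Agent.Helper74.NM

theorem hDHH (hGA : StGA) (hSTP : StSTP) (hDAB : StDAB) (hDBD : StDBD) : StDHH := by
  intro α W rk l hl w
  rcases w with _ | ⟨a, w⟩
  · exact dead_nil _ _ _ _
  have hN : N rk false [] = [Lt.o (.b false)] := by simp [N, cells]
  have key : ∀ m : List (W × List W), (∀ g ∈ m, Rc rk g) →
      Dead (P rk) op (.k (.b true))
        (m.flatMap (gd rk) ++ .k (.b true) :: w.flatMap fun a => blk rk (l a)) (N rk false []) := by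
    intro m
    induction m with
    | nil =>
      intro _
      rw [List.flatMap_nil, List.nil_append, dead_cons, hN]
      refine ⟨fun h => by simp at h, fun h => absurd h (by simp [op]), ?_⟩
      intro x σ' h hx
      simp only [List.cons.injEq] at h
      rw [← h.1] at hx
      simp [P] at hx
    | cons g m ih =>
      intro hm
      have hg : Rc rk g := hm g (by simp)
      have hm' : ∀ g ∈ m, Rc rk g := fun g' h => hm g' (by simp [h])
      rw [List.flatMap_cons, List.append_assoc, dead_append]
      refine ⟨?_, ?_⟩
      · unfold gd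
        rw [dead_append]
        refine ⟨(hDAB W rk _ g _).1 (fun h => by rw [hN] at h; simp at h), ?_⟩
        intro τ hτ
        rcases (hGA W rk g (N rk false [])).2.2 (clean_N rk false []) τ hτ with h | h
        · exact (hDAB W rk _ g _).2 (fun h' => by rw [h] at h'; simp at h')
        · rw [hN] at h
          simp [Zs] at h
      · intro τ hτ
        rcases (hSTP W rk g hg).1 false [] τ hτ with h | ⟨_, s', h, _⟩ | h
        · rw [h]
          exact ih hm'
        · simp at h
        · exact (hDBD α W rk l hl (.k (.b true)) w).1 m τ hm' h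
  have e : (a :: w).flatMap (fun a => blk rk (l a)) =
      .o (.b false) :: ((l a).flatMap (gd rk) ++ .k (.b true) :: w.flatMap fun a => blk rk (l a)) := by
    rw [List.flatMap_cons]
    simp [blk]
  rw [e, dead_cons]
  refine ⟨fun _ => by simp [P], fun _ => ?_, fun x σ' h _ => by simp at h⟩
  rw [← hN]
  exact key (l a) (hl a)

end Pool.Agent.Helper26.NM
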